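import Mathlib

/-!
# No common hypercyclic vector for the family `a T + b I`, `a > 0`, `b` real

Let `X` be a nonzero real Hausdorff locally convex space (for instance a real Frechet space),
`T : X →L[ℝ] X` and `x : X`.  Then `x` is not a hypercyclic vector for all the operators
`a T + b I`, `a > 0`, `b : ℝ`.

Outline of the proof.  Fix a nonzero continuous functional `f` and put
`q n t = f ((T + t) ^ n x)`; these are polynomials in `t` with `q (n+1)' = (n+1) q n`
(an Appell sequence).

* (`rolle_refined`) For a real polynomial `p`, the number of real roots of `p` with multiplicity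
  plus twice the number of the points with `p' = 0`, `p p'' > 0` is at most the number of real
  roots of `p'` with multiplicity plus one.  Hence (`sum_card_critSet`) the number of the pairs
  `(n, t)`, `n ≤ N`, with `q n t = 0` and `q (n-1) t * q (n+1) t > 0` is at most `N / 2`.
* This is applied to `f ∘ (1 + θ T)` for all small `θ`.  If at time `n` the values of
  `f, f T, f T ^ 2, f T ^ 3` at the orbit point `(a (T + t)) ^ n x` are close to `1, 0, 1, 0`, then
  there is a unique small `θ = θ_n(t)` for which `t` is such a point for `f ∘ (1 + θ T)` at time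
  `n + 1`, and `|θ_n'| ≥ (n + 1) / 5`.  Integration over `θ` gives `∑_{n ≤ N} n |E_n| ≤ C N`
  where `E_n` is the set of the `t` for which such an `a` exists, and so
  `∑ |E_n| / n < ∞` (`tsum_volume_E`).
* For a fixed `t` the set of the admissible `a ≤ M` has measure at most `C M / n`, so two
  applications of the Borel-Cantelli argument show that for almost all `t` and almost all `a` the
  orbit visits the open set given by the four conditions only finitely often (`seq_main`).
* This open set is nonempty because the functionals `f ∘ T ^ j` are linearly independent if some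
  `a T + b I` has a hypercyclic vector (`exists_values`).
-/

open Polynomial MeasureTheory Set Filter Topology
open scoped ENNReal

namespace Pool.Agent.MP_e13f12_an.AppellCount

/-- The critical points `t` of `p` with `p t * p'' t > 0`. -/
noncomputable def critSet (p : ℝ[X]) : Finset ℝ :=
  (p.derivative.roots.toFinset).filter
    (fun t => 0 < p.eval t * p.derivative.derivative.eval t)

lemma exists_lt_of_localMin_right (g : ℝ[X]) (hg : g.derivative ≠ 0) {x y : ℝ} (hxy : x < y)
    (hmin : IsLocalMin (fun s => g.eval s) x) : ∃ z ∈ Ioo x y, g.eval x < g.eval z := by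
  by_contra hcon
  push Not at hcon
  have h1 : ∀ᶠ z in 𝓝[>] x, g.eval z = g.eval x := by
    have h2 : ∀ᶠ z in 𝓝[>] x, g.eval x ≤ g.eval z := nhdsWithin_le_nhds hmin
    have h3 : ∀ᶠ z in 𝓝[>] x, z ∈ Ioo x y := Ioo_mem_nhdsGT hxy
    filter_upwards [h2, h3] with z hz hz'
    exact le_antisymm (hcon z hz') hz
  have h2 : (g - C (g.eval x)) = 0 := by
    apply Polynomial.eq_zero_of_infinite_isRoot
    have h3 : {z | g.eval z = g.eval x} ∈ 𝓝[>] x := h1
    have : (Set.Infinite {z | g.eval z = g.eval x}) := by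
      obtain ⟨u, hu, hu2⟩ := (mem_nhdsGT_iff_exists_Ioo_subset).1 h3
      exact (Ioo_infinite hu).mono hu2
    refine this.mono ?_
    intro z hz
    simp only [mem_ofPred_eq] at hz
    simp [Polynomial.IsRoot, hz]
  have h3 : g = C (g.eval x) := by linear_combination h2
  apply hg
  rw [h3]
  simp

lemma exists_lt_of_localMin_left (g : ℝ[X]) (hg : g.derivative ≠ 0) {x y : ℝ} (hxy : y < x)
    (hmin : IsLocalMin (fun s => g.eval s) x) : ∃ z ∈ Ioo y x, g.eval x < g.eval z := by
  by_contra hcon
  push Not at hcon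
  have h1 : ∀ᶠ z in 𝓝[<] x, g.eval z = g.eval x := by
    have h2 : ∀ᶠ z in 𝓝[<] x, g.eval x ≤ g.eval z := nhdsWithin_le_nhds hmin
    have h3 : ∀ᶠ z in 𝓝[<] x, z ∈ Ioo y x := Ioo_mem_nhdsLT hxy
    filter_upwards [h2, h3] with z hz hz'
    exact le_antisymm (hcon z hz') hz
  have h2 : (g - C (g.eval x)) = 0 := by
    apply Polynomial.eq_zero_of_infinite_isRoot
    have h3 : {z | g.eval z = g.eval x} ∈ 𝓝[<] x := h1
    have : (Set.Infinite {z | g.eval z = g.eval x}) := by
      obtain ⟨u, hu, hu2⟩ := (mem_nhdsLT_iff_exists_Ioo_subset).1 h3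
      exact (Ioo_infinite hu).mono hu2
    refine this.mono ?_
    intro z hz
    simp only [mem_ofPred_eq] at hz
    simp [Polynomial.IsRoot, hz]
  have h3 : g = C (g.eval x) := by linear_combination h2
  apply hg
  rw [h3]
  simp

/-- Roots of `p` and the points of `critSet p` are local minima of `p ^ 2`. -/
lemma isLocalMin_sq (p : ℝ[X]) {x : ℝ} (hx : x ∈ p.roots.toFinset ∪ critSet p) :
    IsLocalMin (fun s => (p ^ 2).eval s) x := by
  rw [Finset.mem_union] at hx
  rcases hx with hx | hx
  · rw [Multiset.mem_toFinset] at hx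
    have h0 : p.eval x = 0 := (Polynomial.isRoot_of_mem_roots hx)
    refine Filter.Eventually.of_forall fun z => ?_
    simp only [Polynomial.eval_pow, h0]
    rw [zero_pow two_ne_zero]
    exact sq_nonneg _
  · simp only [critSet, Finset.mem_filter, Multiset.mem_toFinset] at hx
    have h0 : p.derivative.eval x = 0 := Polynomial.isRoot_of_mem_roots hx.1
    have hd1 : deriv (fun s => (p ^ 2).eval s) = fun s => (p ^ 2).derivative.eval s := by
      funext s
      exact Polynomial.deriv _
    apply isLocalMin_of_deriv_deriv_pos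
    · rw [hd1, Polynomial.deriv]
      simp only [Polynomial.derivative_pow, Polynomial.derivative_mul, Polynomial.eval_add,
        Polynomial.eval_mul]
      simp [h0]
      have := hx.2
      linarith
    · rw [hd1]
      simp [Polynomial.derivative_pow, h0]
    · exact (p ^ 2).continuous.continuousAt

lemma exists_crit_between (p : ℝ[X]) (hp' : p.derivative ≠ 0) {x y : ℝ}
    (hx : x ∈ p.roots.toFinset ∪ critSet p) (hy : y ∈ p.roots.toFinset ∪ critSet p)
    (hxy : x < y) : ∃ z, x < z ∧ z < y ∧ p.derivative.eval z = 0 := by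
  have hp : p ≠ 0 := by
    rintro rfl
    exact hp' (by simp)
  have hg : (p ^ 2).derivative ≠ 0 := by
    rw [Polynomial.derivative_pow]
    simp [hp, hp']
  obtain ⟨x', hx', hx'2⟩ := exists_lt_of_localMin_right (p ^ 2) hg hxy (isLocalMin_sq p hx)
  obtain ⟨y', hy', hy'2⟩ := exists_lt_of_localMin_left (p ^ 2) hg hxy (isLocalMin_sq p hy)
  obtain ⟨z, hz, hzmax⟩ := (isCompact_Icc (a := x) (b := y)).exists_isMaxOn
    ⟨x, left_mem_Icc.2 hxy.le⟩ ((p ^ 2).continuous.continuousOn)
  have hmx : (p ^ 2).eval x' ≤ (p ^ 2).eval z := hzmax (Ioo_subset_Icc_self hx')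
  have hmy : (p ^ 2).eval y' ≤ (p ^ 2).eval z := hzmax (Ioo_subset_Icc_self hy')
  have hzx : z ≠ x := by
    rintro rfl
    linarith
  have hzy : z ≠ y := by
    rintro rfl
    linarith
  have hz1 : x < z := lt_of_le_of_ne hz.1 (Ne.symm hzx)
  have hz2 : z < y := lt_of_le_of_ne hz.2 hzy
  refine ⟨z, hz1, hz2, ?_⟩
  have hloc : IsLocalMax (fun s => (p ^ 2).eval s) z :=
    hzmax.isLocalMax (Icc_mem_nhds hz1 hz2)
  have hder : deriv (fun s => (p ^ 2).eval s) z = 0 := hloc.deriv_eq_zero
  rw [Polynomial.deriv] at hder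
  have hpos : 0 < (p ^ 2).eval z := by
    have : 0 ≤ (p ^ 2).eval x := by
      rw [Polynomial.eval_pow]; positivity
    linarith
  have hpz : p.eval z ≠ 0 := by
    intro h
    rw [Polynomial.eval_pow, h] at hpos
    simp at hpos
  simp [Polynomial.derivative_pow, hpz] at hder
  exact hder

lemma critSet_eq_empty {p : ℝ[X]} (h : p.derivative = 0) : critSet p = ∅ := by
  simp [critSet, h]

lemma disjoint_critSet (p : ℝ[X]) : Disjoint p.roots.toFinset (critSet p) := by
  rw [Finset.disjoint_left]
  intro a ha hb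
  simp only [critSet, Finset.mem_filter, Multiset.mem_toFinset] at ha hb
  have h0 : p.eval a = 0 := Polynomial.isRoot_of_mem_roots ha
  have := hb.2
  rw [h0] at this
  simp at this

/-- Rolle's theorem with multiplicities and with the extra critical points. -/
lemma rolle_refined (p : ℝ[X]) :
    Multiset.card p.roots + 2 * (critSet p).card ≤ Multiset.card p.derivative.roots + 1 := by
  rcases eq_or_ne p.derivative 0 with hp' | hp'
  · rw [critSet_eq_empty hp', Polynomial.eq_C_of_derivative_eq_zero hp']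
    simp
  have hp : p ≠ 0 := by
    rintro rfl
    exact hp' (by simp)
  have hcrit : critSet p ⊆ p.derivative.roots.toFinset := Finset.filter_subset _ _
  have hcard : (p.roots.toFinset ∪ critSet p).card ≤
      (p.derivative.roots.toFinset \ (p.roots.toFinset ∪ critSet p)).card + 1 := by
    refine Finset.card_le_sdiff_of_interleaved fun x hx y hy hxy _ => ?_
    obtain ⟨z, h1, h2, h3⟩ := exists_crit_between p hp' hx hy hxy
    refine ⟨z, ?_, h1, h2⟩
    rw [Multiset.mem_toFinset, Polynomial.mem_roots hp']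
    exact h3
  rw [Finset.card_union_of_disjoint (disjoint_critSet p)] at hcard
  -- the count of the roots of the derivative
  have hA : Multiset.card p.roots = ∑ x ∈ p.roots.toFinset, p.roots.count x :=
    (Multiset.toFinset_sum_count_eq _).symm
  have hB : ∑ x ∈ p.roots.toFinset, p.roots.count x ≤
      ∑ x ∈ p.roots.toFinset, (p.derivative.roots.count x + 1) := by
    refine Finset.sum_le_sum fun x _ => ?_
    rw [Polynomial.count_roots, Polynomial.count_roots]
    have := Polynomial.rootMultiplicity_sub_one_le_derivative_rootMultiplicity p x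
    omega
  have hC : (critSet p).card ≤ ∑ x ∈ critSet p, p.derivative.roots.count x := by
    rw [Finset.card_eq_sum_ones]
    refine Finset.sum_le_sum fun x hx => ?_
    rw [Nat.one_le_iff_ne_zero, Multiset.count_ne_zero, ← Multiset.mem_toFinset]
    exact hcrit hx
  have hD : (p.derivative.roots.toFinset \ (p.roots.toFinset ∪ critSet p)).card ≤
      ∑ x ∈ p.derivative.roots.toFinset \ (p.roots.toFinset ∪ critSet p),
        p.derivative.roots.count x := by
    rw [Finset.card_eq_sum_ones]
    refine Finset.sum_le_sum fun x hx => ?_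
    rw [Nat.one_le_iff_ne_zero, Multiset.count_ne_zero, ← Multiset.mem_toFinset]
    exact (Finset.mem_sdiff.1 hx).1
  have hE : (∑ x ∈ p.derivative.roots.toFinset \ (p.roots.toFinset ∪ critSet p),
        p.derivative.roots.count x) + ((∑ x ∈ p.roots.toFinset, p.derivative.roots.count x) +
        (∑ x ∈ critSet p, p.derivative.roots.count x)) = Multiset.card p.derivative.roots := by
    rw [← Finset.sum_union (disjoint_critSet p), ← Finset.sum_union Finset.sdiff_disjoint,
      Finset.sdiff_union_self_eq_union]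
    rw [← Multiset.toFinset_sum_count_eq, ← Finset.sum_subset Finset.subset_union_left]
    intro x _ hx₂
    simpa only [Multiset.mem_toFinset, Multiset.count_eq_zero] using hx₂
  rw [Finset.sum_add_distrib] at hB
  simp only [Finset.sum_const, smul_eq_mul, mul_one] at hB
  omega

/-- Shift of a sequence. -/
def sh (u : ℕ → ℝ) : ℕ → ℝ := fun k => u (k + 1)

/-- The Appell polynomials of a sequence: `app u n = ∑ k, choose n k * u k * X ^ (n - k)`. -/
noncomputable def app : (ℕ → ℝ) → ℕ → ℝ[X]
  | u, 0 => C (u 0)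
  | u, n + 1 => X * app u n + app (sh u) n

lemma app_zero (u : ℕ → ℝ) : app u 0 = C (u 0) := by rw [app]

lemma app_succ (u : ℕ → ℝ) (n : ℕ) : app u (n + 1) = X * app u n + app (sh u) n := by
  rw [app]

lemma derivative_app_succ (u : ℕ → ℝ) (n : ℕ) :
    (app u (n + 1)).derivative = C ((n : ℝ) + 1) * app u n := by
  induction n generalizing u with
  | zero =>
    rw [app_succ]
    simp [app_zero]
  | succ n ih =>
    rw [app_succ u (n + 1)]
    simp only [derivative_add, derivative_mul, derivative_X, one_mul, ih]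
    have h : app u (n + 1) = X * app u n + app (sh u) n := app_succ u n
    push_cast
    rw [h]
    simp only [C_add, C_1]
    ring

lemma card_roots_app_succ (u : ℕ → ℝ) (n : ℕ) :
    Multiset.card (app u (n + 1)).roots + 2 * (critSet (app u (n + 1))).card ≤
      Multiset.card (app u n).roots + 1 := by
  have h := rolle_refined (app u (n + 1))
  have hn : ((n : ℝ) + 1) ≠ 0 := by positivity
  rwa [derivative_app_succ, Polynomial.roots_C_mul _ hn] at h

lemma sum_card_critSet (u : ℕ → ℝ) (N : ℕ) :
    ∑ n ∈ Finset.range N, 2 * (critSet (app u (n + 1))).card ≤ N := by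
  have key : ∀ N : ℕ, Multiset.card (app u N).roots +
      ∑ n ∈ Finset.range N, 2 * (critSet (app u (n + 1))).card ≤ N := by
    intro N
    induction N with
    | zero => simp [app_zero]
    | succ N ih =>
      rw [Finset.sum_range_succ]
      have := card_roots_app_succ u N
      omega
  have := key N
  omega

lemma app_add_smul (u v : ℕ → ℝ) (θ : ℝ) (n : ℕ) :
    app (fun k => u k + θ * v k) n = app u n + C θ * app v n := by
  induction n generalizing u v with
  | zero => simp [app_zero]
  | succ n ih =>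
    rw [app_succ, app_succ, app_succ, ih]
    have : sh (fun k => u k + θ * v k) = fun k => sh u k + θ * sh v k := rfl
    rw [this, ih]
    ring

lemma eval_app_succ (u : ℕ → ℝ) (n : ℕ) (t : ℝ) :
    (app u (n + 1)).eval t = t * (app u n).eval t + (app (sh u) n).eval t := by
  rw [app_succ]
  simp

lemma hasDerivAt_app_succ (u : ℕ → ℝ) (n : ℕ) (t : ℝ) :
    HasDerivAt (fun s => (app u (n + 1)).eval s) (((n : ℝ) + 1) * (app u n).eval t) t := by
  have h := (app u (n + 1)).hasDerivAt t
  rw [derivative_app_succ] at h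
  simpa using h

lemma mem_critSet_app (u : ℕ → ℝ) (n : ℕ) (t : ℝ) (h0 : 0 < (app u n).eval t)
    (h1 : (app u (n + 1)).eval t = 0) (h2 : 0 < (app u (n + 2)).eval t) :
    t ∈ critSet (app u (n + 2)) := by
  have hd : (app u (n + 2)).derivative = C ((n : ℝ) + 2) * app u (n + 1) := by
    have := derivative_app_succ u (n + 1)
    rw [this]
    push_cast
    congr 2
    ring
  have hd2 : (app u (n + 2)).derivative.derivative =
      C (((n : ℝ) + 2) * ((n : ℝ) + 1)) * app u n := by
    rw [hd, derivative_C_mul, derivative_app_succ, ← mul_assoc, ← C_mul]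
  simp only [critSet, Finset.mem_filter, Multiset.mem_toFinset]
  have hne : (app u (n + 2)).derivative ≠ 0 := by
    intro h
    have h3 : (app u (n + 2)).derivative.derivative = 0 := by rw [h]; simp
    rw [hd2] at h3
    have h4 : eval t (C (((n : ℝ) + 2) * ((n : ℝ) + 1)) * app u n) = 0 := by rw [h3]; simp
    rw [eval_C_mul] at h4
    have : 0 < (((n : ℝ) + 2) * ((n : ℝ) + 1)) * (app u n).eval t := by positivity
    linarith
  refine ⟨?_, ?_⟩
  · rw [mem_roots hne, IsRoot, hd, eval_C_mul, h1, mul_zero]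
  · rw [hd2, eval_C_mul]
    positivity

/-- Abel summation. -/
lemma weighted_sum_le (c : ℕ → ℕ) (hc : ∀ N, ∑ n ∈ Finset.range N, c n ≤ N) (w : ℕ → ℝ)
    (hw : Antitone w) (hw0 : ∀ n, 0 ≤ w n) (N : ℕ) :
    ∑ n ∈ Finset.range N, (c n : ℝ) * w n ≤ ∑ n ∈ Finset.range N, w n := by
  have key : ∀ N : ℕ, ∑ n ∈ Finset.range N, (c n : ℝ) * w n +
      ((N : ℝ) - ∑ n ∈ Finset.range N, (c n : ℝ)) * w N ≤ ∑ n ∈ Finset.range N, w n := by
    intro N
    induction N with
    | zero => simp
    | succ N ih =>
      have h1 : ∑ n ∈ Finset.range (N + 1), (c n : ℝ) ≤ N + 1 := by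
        exact_mod_cast hc (N + 1)
      have h2 : w (N + 1) ≤ w N := hw (Nat.le_succ N)
      rw [Finset.sum_range_succ, Finset.sum_range_succ (fun n => w n)]
      rw [Finset.sum_range_succ] at h1 ⊢
      push_cast
      nlinarith [mul_le_mul_of_nonneg_left h2 (sub_nonneg.2 h1)]
  have h1 : ∑ n ∈ Finset.range N, (c n : ℝ) ≤ N := by exact_mod_cast hc N
  have h2 := key N
  have h3 : 0 ≤ ((N : ℝ) - ∑ n ∈ Finset.range N, (c n : ℝ)) * w N :=
    mul_nonneg (sub_nonneg.2 h1) (hw0 N)
  linarith

/-- One-dimensional area inequality (with multiplicities) for a function with negative derivative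
on an open set. -/
lemma area_ineq (E : Set ℝ) (hE : IsOpen E) (θ θ' : ℝ → ℝ)
    (hd : ∀ t ∈ E, HasDerivAt θ (θ' t) t) (c : ℝ) (hc : 0 < c) (hθ' : ∀ t ∈ E, θ' t ≤ -c) :
    ∃ g : ℝ → ℝ≥0∞, Measurable g ∧ (ENNReal.ofReal c * volume E ≤ ∫⁻ y, g y) ∧
      (∀ y, ∀ F : Finset ℝ, (∀ t ∈ E, θ t = y → t ∈ F) → g y ≤ F.card) := by
  classical
  let e : ℕ ≃ ℚ × ℚ := (Denumerable.eqv (ℚ × ℚ)).symm
  let I : ℕ → Set ℝ := fun k =>
    if Ioo ((e k).1 : ℝ) ((e k).2 : ℝ) ⊆ E then Ioo ((e k).1 : ℝ) ((e k).2 : ℝ) else ∅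
  have hIE : ∀ k, I k ⊆ E := by
    intro k
    simp only [I]
    split_ifs with h
    · exact h
    · exact empty_subset _
  have hIconv : ∀ k, Convex ℝ (I k) := by
    intro k
    simp only [I]
    split_ifs with h
    · exact convex_Ioo _ _
    · exact convex_empty
  have hImeas : ∀ k, MeasurableSet (I k) := by
    intro k
    simp only [I]
    split_ifs with h
    · exact measurableSet_Ioo
    · exact MeasurableSet.empty
  have hIunion : ⋃ k, I k = E := by
    apply Subset.antisymm (iUnion_subset hIE)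
    intro t ht
    obtain ⟨ε, hε, hball⟩ := Metric.isOpen_iff.1 hE t ht
    rw [Real.ball_eq_Ioo] at hball
    obtain ⟨a, ha1, ha2⟩ := exists_rat_btwn (show t - ε < t by linarith)
    obtain ⟨b, hb1, hb2⟩ := exists_rat_btwn (show t < t + ε by linarith)
    rw [mem_iUnion]
    refine ⟨e.symm (a, b), ?_⟩
    simp only [I, Equiv.apply_symm_apply]
    have hsub : Ioo (a : ℝ) (b : ℝ) ⊆ E :=
      (Ioo_subset_Ioo ha1.le hb2.le).trans hball
    rw [if_pos hsub]
    exact ⟨ha2, hb1⟩
  let A : ℕ → Set ℝ := disjointed I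
  have hAI : ∀ k, A k ⊆ I k := fun k => disjointed_subset I k
  have hAmeas : ∀ k, MeasurableSet (A k) := fun k => MeasurableSet.disjointed hImeas k
  have hAdisj : Pairwise (fun i j => Disjoint (A i) (A j)) := disjoint_disjointed I
  have hAunion : ⋃ k, A k = E := by rw [iUnion_disjointed, hIunion]
  have hinj : ∀ k, InjOn θ (A k) := by
    intro k
    have h1 : StrictAntiOn θ (I k) := by
      apply strictAntiOn_of_deriv_neg (hIconv k)
      · exact fun t ht => (hd t (hIE k ht)).continuousAt.continuousWithinAt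
      · intro t ht
        have ht' : t ∈ E := hIE k (interior_subset ht)
        rw [(hd t ht').deriv]
        have := hθ' t ht'
        linarith
    exact h1.injOn.mono (hAI k)
  have himg : ∀ k, MeasurableSet (θ '' A k) := by
    intro k
    apply (hAmeas k).image_of_continuousOn_injOn _ (hinj k)
    exact fun t ht => (hd t (hIE k (hAI k ht))).continuousAt.continuousWithinAt
  refine ⟨fun y => ∑' k, (θ '' A k).indicator 1 y, ?_, ?_, ?_⟩
  · exact Measurable.tsum fun k => measurable_one.indicator (himg k)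
  · rw [lintegral_tsum fun k => (measurable_one.indicator (himg k)).aemeasurable]
    have h1 : ∀ k, ∫⁻ y, (θ '' A k).indicator (1 : ℝ → ℝ≥0∞) y = volume (θ '' A k) := by
      intro k
      rw [lintegral_indicator_one (himg k)]
    have h2 : ∀ k, ENNReal.ofReal c * volume (A k) ≤ volume (θ '' A k) := by
      intro k
      have h3 := lintegral_image_eq_lintegral_abs_deriv_mul (hAmeas k)
        (fun t ht => (hd t (hIE k (hAI k ht))).hasDerivWithinAt) (hinj k) (fun _ => 1)
      simp only [lintegral_const, one_mul, Measure.restrict_apply MeasurableSet.univ, univ_inter,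
        mul_one] at h3
      rw [h3]
      calc ENNReal.ofReal c * volume (A k) = ∫⁻ _ in A k, ENNReal.ofReal c := by
            rw [lintegral_const, Measure.restrict_apply MeasurableSet.univ, univ_inter]
        _ ≤ ∫⁻ x in A k, ENNReal.ofReal |θ' x| := by
            apply setLIntegral_mono' (hAmeas k)
            intro x hx
            apply ENNReal.ofReal_le_ofReal
            have := hθ' x (hIE k (hAI k hx))
            rw [abs_of_neg (by linarith)]
            linarith
    calc ENNReal.ofReal c * volume E = ∑' k, ENNReal.ofReal c * volume (A k) := by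
          rw [ENNReal.tsum_mul_left, ← measure_iUnion hAdisj hAmeas, hAunion]
      _ ≤ ∑' k, volume (θ '' A k) := ENNReal.tsum_le_tsum h2
      _ = _ := by
          congr 1
          funext k
          exact (h1 k).symm
  · intro y F hF
    change ∑' k, (θ '' A k).indicator (1 : ℝ → ℝ≥0∞) y ≤ F.card
    rw [ENNReal.tsum_eq_iSup_sum]
    apply iSup_le
    intro s
    have h1 : ∑ k ∈ s, (θ '' A k).indicator (1 : ℝ → ℝ≥0∞) y =
        ((s.filter (fun k => y ∈ θ '' A k)).card : ℝ≥0∞) := by
      rw [Finset.card_filter]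
      push_cast
      apply Finset.sum_congr rfl
      intro k _
      by_cases h : y ∈ θ '' A k
      · simp only [indicator_of_mem h, Pi.one_apply, if_pos h]
      · simp only [indicator_of_notMem h, if_neg h]
    rw [h1]
    have h2 : (s.filter (fun k => y ∈ θ '' A k)).card ≤ F.card := by
      have hchoice : ∀ k, ∃ t, y ∈ θ '' A k → (t ∈ A k ∧ θ t = y) := by
        intro k
        by_cases h : y ∈ θ '' A k
        · obtain ⟨t, ht1, ht2⟩ := h
          exact ⟨t, fun _ => ⟨ht1, ht2⟩⟩
        · exact ⟨0, fun h' => absurd h' h⟩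
      choose τ hτ using hchoice
      apply Finset.card_le_card_of_injOn τ
      · intro k hk
        simp only [Finset.coe_filter, mem_ofPred_eq] at hk
        obtain ⟨h3, h4⟩ := hτ k hk.2
        exact hF _ (hIE k (hAI k h3)) h4
      · intro k hk l hl hkl
        simp only [Finset.coe_filter, mem_ofPred_eq] at hk hl
        obtain ⟨h3, _⟩ := hτ k hk.2
        obtain ⟨h5, _⟩ := hτ l hl.2
        by_contra hne
        rw [hkl] at h3
        exact (Set.disjoint_left.1 (hAdisj hne)) h3 h5
    exact_mod_cast h2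

/-- The conditions on the values of the four consecutive functionals. -/
def Good (y0 y1 y2 y3 : ℝ) : Prop :=
  1 < y0 ∧ y0 < 2 ∧ |y1| < 1 / 16 ∧ 1 < y2 ∧ y2 < 2 ∧ |y3| < 1

/-- The set of the `t` which are served at time `n`, for some scaling factor `s`. -/
def E (u : ℕ → ℝ) (n : ℕ) : Set ℝ :=
  {t | t ∈ Ioo (0 : ℝ) (1 / 16) ∧ ∃ s : ℝ, 0 < s ∧ Good (s * (app u n).eval t)
    (s * (app (sh u) n).eval t) (s * (app (sh (sh u)) n).eval t)
    (s * (app (sh (sh (sh u))) n).eval t)}

lemma isOpen_E (u : ℕ → ℝ) (n : ℕ) : IsOpen (E u n) := by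
  have h : E u n = Ioo (0 : ℝ) (1 / 16) ∩ ⋃ s ∈ Ioi (0 : ℝ), {t | Good (s * (app u n).eval t)
    (s * (app (sh u) n).eval t) (s * (app (sh (sh u)) n).eval t)
    (s * (app (sh (sh (sh u))) n).eval t)} := by
    ext t
    simp only [E, mem_ofPred_eq, mem_inter_iff, mem_iUnion, mem_Ioi, exists_prop]
  rw [h]
  apply isOpen_Ioo.inter
  apply isOpen_biUnion
  intro s _
  unfold Good
  have c0 : Continuous fun t => s * (app u n).eval t := continuous_const.mul (app u n).continuous
  have c1 : Continuous fun t => s * (app (sh u) n).eval t :=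
    continuous_const.mul (app (sh u) n).continuous
  have c2 : Continuous fun t => s * (app (sh (sh u)) n).eval t :=
    continuous_const.mul (app (sh (sh u)) n).continuous
  have c3 : Continuous fun t => s * (app (sh (sh (sh u))) n).eval t :=
    continuous_const.mul (app (sh (sh (sh u))) n).continuous
  refine (isOpen_lt continuous_const c0).inter ((isOpen_lt c0 continuous_const).inter
    ((isOpen_lt c1.abs continuous_const).inter ((isOpen_lt continuous_const c2).inter
      ((isOpen_lt c2 continuous_const).inter (isOpen_lt c3.abs continuous_const)))))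

/-- The parameter `θ` at which `f ∘ (1 + θ T)` vanishes at time `n + 1`. -/
noncomputable def theta (u : ℕ → ℝ) (n : ℕ) (t : ℝ) : ℝ :=
  - (app u (n + 1)).eval t / (app (sh u) (n + 1)).eval t

/-- its derivative -/
noncomputable def theta' (u : ℕ → ℝ) (n : ℕ) (t : ℝ) : ℝ :=
  - (((n : ℝ) + 1) * ((app u n).eval t * (app (sh (sh u)) n).eval t - (app (sh u) n).eval t ^ 2))
    / (app (sh u) (n + 1)).eval t ^ 2

lemma den_pos {u : ℕ → ℝ} {n : ℕ} {t : ℝ} (ht : t ∈ E u n) :
    0 < (app (sh u) (n + 1)).eval t := by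
  obtain ⟨ht, s, hs, h1, h2, h3, h4, h5, h6⟩ := ht
  rw [abs_lt] at h3
  rw [eval_app_succ]
  have : 0 < s * (t * (app (sh u) n).eval t + (app (sh (sh u)) n).eval t) := by
    nlinarith [ht.1, ht.2]
  exact (pos_iff_pos_of_mul_pos this).1 hs

lemma hasDerivAt_theta {u : ℕ → ℝ} {n : ℕ} {t : ℝ} (ht : t ∈ E u n) :
    HasDerivAt (theta u n) (theta' u n t) t := by
  have hden := (den_pos ht).ne'
  have h1 := hasDerivAt_app_succ u n t
  have h2 := hasDerivAt_app_succ (sh u) n t
  have h3 : HasDerivAt (theta u n) _ t := (h1.neg).div h2 hden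
  refine h3.congr_deriv ?_
  unfold theta'
  simp only [Pi.neg_apply]
  rw [eval_app_succ u, eval_app_succ (sh u)]
  congr 1
  ring

lemma theta'_le {u : ℕ → ℝ} {n : ℕ} {t : ℝ} (ht : t ∈ E u n) :
    theta' u n t ≤ -(((n : ℝ) + 1) / 5) := by
  have hden := den_pos ht
  obtain ⟨ht, s, hs, h1, h2, h3, h4, h5, h6⟩ := ht
  unfold theta'
  rw [neg_div, neg_le_neg_iff, le_div_iff₀ (by positivity)]
  rw [eval_app_succ] at hden ⊢
  rw [abs_lt] at h3
  set p0 := (app u n).eval t with hp0
  set p1 := (app (sh u) n).eval t with hp1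
  set p2 := (app (sh (sh u)) n).eval t with hp2
  set p3 := (app (sh (sh (sh u))) n).eval t with hp3
  have hn : (0 : ℝ) < (n : ℝ) + 1 := by positivity
  have key : (t * p1 + p2) ^ 2 ≤ 5 * (p0 * p2 - p1 ^ 2) := by
    have hkey : (t * (s * p1) + (s * p2)) ^ 2 ≤ 5 * ((s * p0) * (s * p2) - (s * p1) ^ 2) := by
      set y0 := s * p0
      set y1 := s * p1
      set y2 := s * p2
      have ha : |y1| < 1 / 16 := abs_lt.2 h3
      have hb : y1 ^ 2 ≤ 1 / 256 := by nlinarith [abs_lt.2 h3, sq_abs y1, abs_nonneg y1]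
      have hc : |t * y1| ≤ 1 / 256 := by
        rw [abs_mul, abs_of_pos ht.1]
        nlinarith [ht.1, ht.2, abs_nonneg y1]
      have hc' := abs_le.1 hc
      have hd : (t * y1) ^ 2 ≤ 1 / 256 := by nlinarith
      -- (t y1 + y2)^2 ≤ y2^2 + 2 * (1/256) * y2 + 1/256 ≤ 5 y0 y2 - 5/256
      have he : y2 < y0 * y2 := by nlinarith
      have hf : y2 ^ 2 < 2 * y2 := by nlinarith
      nlinarith
    have hs2 : 0 < s ^ 2 := by positivity
    have h7 : s ^ 2 * (t * p1 + p2) ^ 2 ≤ s ^ 2 * (5 * (p0 * p2 - p1 ^ 2)) := by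
      nlinarith [hkey]
    exact le_of_mul_le_mul_left h7 hs2
  nlinarith [key, hn]

lemma abs_theta_lt {u : ℕ → ℝ} {n : ℕ} {t : ℝ} (ht : t ∈ E u n) :
    |theta u n t| < 1 / 4 := by
  have hden := den_pos ht
  obtain ⟨ht, s, hs, h1, h2, h3, h4, h5, h6⟩ := ht
  unfold theta
  rw [abs_div, abs_neg, abs_of_pos hden, div_lt_iff₀ hden]
  rw [eval_app_succ, eval_app_succ] at *
  rw [abs_lt] at h3
  rw [abs_lt]
  set p0 := (app u n).eval t with hp0
  set p1 := (app (sh u) n).eval t with hp1
  set p2 := (app (sh (sh u)) n).eval t with hp2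
  have ht1 := ht.1
  have ht2 := ht.2
  have hb1 : t * (s * p1) ≤ 1 / 256 := by nlinarith
  have hb2 : -(1 / 256) ≤ t * (s * p1) := by nlinarith
  have hb3 : t * (s * p0) ≤ 1 / 8 := by nlinarith
  have hb4 : 0 ≤ t * (s * p0) := by nlinarith
  constructor
  · have : s * (-(1 / 4 * (t * p1 + p2))) < s * (t * p0 + p1) := by nlinarith
    exact lt_of_mul_lt_mul_left this hs.le
  · have : s * (t * p0 + p1) < s * (1 / 4 * (t * p1 + p2)) := by nlinarith
    exact lt_of_mul_lt_mul_left this hs.le

lemma mem_critSet_theta {u : ℕ → ℝ} {n : ℕ} {t : ℝ} (ht : t ∈ E u n) :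
    t ∈ critSet (app (fun k => u k + theta u n t * sh u k) (n + 2)) := by
  have hden := den_pos ht
  have hθ := abs_theta_lt ht
  have hθdef : (app u (n + 1)).eval t + theta u n t * (app (sh u) (n + 1)).eval t = 0 := by
    unfold theta
    field_simp
    ring
  set θ := theta u n t with hθ'
  obtain ⟨ht, s, hs, h1, h2, h3, h4, h5, h6⟩ := ht
  rw [abs_lt] at h3 h6 hθ
  have ht1 := ht.1
  have ht2 := ht.2
  apply mem_critSet_app
  · rw [app_add_smul, eval_add, eval_C_mul]
    set p0 := (app u n).eval t with hp0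
    set p1 := (app (sh u) n).eval t with hp1
    have : 0 < s * (p0 + θ * p1) := by nlinarith [mul_pos (sub_pos.2 hθ.1) (sub_pos.2 h3.1)]
    exact (pos_iff_pos_of_mul_pos this).1 hs
  · rw [app_add_smul, eval_add, eval_C_mul]
    exact hθdef
  · rw [app_add_smul, eval_add, eval_C_mul]
    rw [eval_app_succ u (n + 1), eval_app_succ (sh u) (n + 1)]
    have h7 : t * (app u (n + 1)).eval t + (app (sh u) (n + 1)).eval t +
        θ * (t * (app (sh u) (n + 1)).eval t + (app (sh (sh u)) (n + 1)).eval t) =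
        t * ((app u (n + 1)).eval t + θ * (app (sh u) (n + 1)).eval t) +
        (app (sh u) (n + 1)).eval t + θ * (app (sh (sh u)) (n + 1)).eval t := by ring
    rw [h7, hθdef, eval_app_succ (sh u) n, eval_app_succ (sh (sh u)) n]
    set p1 := (app (sh u) n).eval t with hp1
    set p2 := (app (sh (sh u)) n).eval t with hp2
    set p3 := (app (sh (sh (sh u))) n).eval t with hp3
    have hb1 : t * (s * p1) ≤ 1 / 256 := by nlinarith
    have hb2 : -(1 / 256) ≤ t * (s * p1) := by nlinarith
    have hb3 : t * (s * p2) ≤ 1 / 8 := by nlinarith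
    have hb4 : 0 ≤ t * (s * p2) := by nlinarith
    have hb5 : |θ * (t * (s * p2) + s * p3)| ≤ 1 / 4 * (9 / 8) := by
      rw [abs_mul]
      apply mul_le_mul (abs_lt.2 hθ).le _ (abs_nonneg _) (by norm_num)
      rw [abs_le]
      constructor <;> linarith
    have hb6 := (abs_le.1 hb5).1
    have : 0 < s * (t * 0 + (t * p1 + p2) + θ * (t * p2 + p3)) := by nlinarith
    exact (pos_iff_pos_of_mul_pos this).1 hs

/-- The weights `1 / (n + 1) ^ 2`. -/
noncomputable def wt (n : ℕ) : ℝ := 1 / ((n : ℝ) + 1) ^ 2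

lemma wt_nonneg (n : ℕ) : 0 ≤ wt n := by unfold wt; positivity

lemma wt_antitone : Antitone wt := by
  intro m n hmn
  unfold wt
  have : (m : ℝ) ≤ n := by exact_mod_cast hmn
  apply one_div_le_one_div_of_le (by positivity)
  gcongr

lemma wt_summable : Summable wt := by
  have h := (Real.summable_one_div_nat_pow (p := 2)).2 (by norm_num)
  have h2 := (summable_nat_add_iff (f := fun n : ℕ => 1 / (n : ℝ) ^ 2) 1).2 h
  refine h2.congr fun n => ?_
  unfold wt
  push_cast
  rfl

/-- The weighted number of the special critical points is bounded. -/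
lemma tsum_critSet_le (v : ℕ → ℝ) :
    ∑' n : ℕ, ENNReal.ofReal (wt n) * ((critSet (app v (n + 2))).card : ℝ≥0∞) ≤
      ENNReal.ofReal (∑' n, wt n) := by
  rw [ENNReal.tsum_eq_iSup_nat]
  apply iSup_le
  intro N
  have hc : ∀ N, ∑ n ∈ Finset.range N, (critSet (app v (n + 2))).card ≤ N := by
    intro N
    have h1 := sum_card_critSet v (N + 1)
    rw [Finset.sum_range_succ', ← Finset.mul_sum] at h1
    simp only [zero_add] at h1
    have h2 : ∑ n ∈ Finset.range N, (critSet (app v (n + 1 + 1))).card =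
      ∑ n ∈ Finset.range N, (critSet (app v (n + 2))).card := rfl
    rw [h2] at h1
    rcases Nat.eq_zero_or_pos N with rfl | hN
    · simp
    · omega
  have h1 := weighted_sum_le (fun n => (critSet (app v (n + 2))).card) hc wt wt_antitone
    wt_nonneg N
  have h2 : ∑ n ∈ Finset.range N, wt n ≤ ∑' n, wt n :=
    wt_summable.sum_le_tsum _ fun i _ => wt_nonneg i
  have h3 : ∑ n ∈ Finset.range N, ENNReal.ofReal (wt n) *
      ((critSet (app v (n + 2))).card : ℝ≥0∞) =
      ENNReal.ofReal (∑ n ∈ Finset.range N, ((critSet (app v (n + 2))).card : ℝ) * wt n) := by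
    rw [ENNReal.ofReal_sum_of_nonneg]
    · apply Finset.sum_congr rfl
      intro n _
      rw [mul_comm, ENNReal.ofReal_mul (by positivity), ENNReal.ofReal_natCast]
    · intro n _
      exact mul_nonneg (by positivity) (wt_nonneg n)
  rw [h3]
  exact ENNReal.ofReal_le_ofReal (h1.trans h2)

lemma tsum_volume_E (u : ℕ → ℝ) :
    ∑' n : ℕ, ENNReal.ofReal (1 / ((n : ℝ) + 1)) * volume (E u n) ≠ ∞ := by
  have hA : ∀ n : ℕ, ∃ g : ℝ → ℝ≥0∞, Measurable g ∧
      (ENNReal.ofReal (((n : ℝ) + 1) / 5) * volume (E u n) ≤ ∫⁻ y, g y) ∧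
      (∀ y, ∀ F : Finset ℝ, (∀ t ∈ E u n, theta u n t = y → t ∈ F) → g y ≤ F.card) := by
    intro n
    exact area_ineq (E u n) (isOpen_E u n) (theta u n) (theta' u n)
      (fun t ht => hasDerivAt_theta ht) (((n : ℝ) + 1) / 5) (by positivity)
      (fun t ht => theta'_le ht)
  choose g hg1 hg2 hg3 using hA
  -- pointwise bound
  have hpt : ∀ y, ∑' n, ENNReal.ofReal (wt n) * g n y ≤
      (Ioo (-(1 / 4) : ℝ) (1 / 4)).indicator (fun _ => ENNReal.ofReal (∑' n, wt n)) y := by
    intro y
    by_cases hy : y ∈ Ioo (-(1 / 4) : ℝ) (1 / 4)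
    · rw [indicator_of_mem hy]
      refine le_trans ?_ (tsum_critSet_le (fun k => u k + y * sh u k))
      apply ENNReal.tsum_le_tsum
      intro n
      gcongr
      apply hg3
      intro t ht hty
      have := mem_critSet_theta ht
      rwa [hty] at this
    · rw [indicator_of_notMem hy]
      apply le_of_eq
      rw [ENNReal.tsum_eq_zero]
      intro n
      have : g n y ≤ ((∅ : Finset ℝ).card : ℝ≥0∞) := by
        apply hg3
        intro t ht hty
        exfalso
        apply hy
        have := abs_lt.1 (abs_theta_lt ht)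
        rw [hty] at this
        exact this
      have h0 : g n y = 0 := by simpa using this
      rw [h0, mul_zero]
  have hfin : ∑' n, ∫⁻ y, ENNReal.ofReal (wt n) * g n y ≠ ∞ := by
    rw [← lintegral_tsum fun n => ((hg1 n).const_mul _).aemeasurable]
    refine ne_of_lt (lt_of_le_of_lt (lintegral_mono hpt) ?_)
    rw [lintegral_indicator_const measurableSet_Ioo]
    exact ENNReal.mul_lt_top ENNReal.ofReal_lt_top (by simp)
  have hle : ∀ n : ℕ, ENNReal.ofReal (1 / ((n : ℝ) + 1)) * volume (E u n) ≤
      5 * ∫⁻ y, ENNReal.ofReal (wt n) * g n y := by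
    intro n
    rw [lintegral_const_mul _ (hg1 n)]
    have h1 : ENNReal.ofReal (1 / ((n : ℝ) + 1)) =
        5 * (ENNReal.ofReal (wt n) * ENNReal.ofReal (((n : ℝ) + 1) / 5)) := by
      rw [← ENNReal.ofReal_mul (wt_nonneg n)]
      have h5 : (5 : ℝ≥0∞) = ENNReal.ofReal 5 := by simp
      rw [h5, ← ENNReal.ofReal_mul (by norm_num)]
      congr 1
      unfold wt
      field_simp
    rw [h1, mul_assoc, mul_assoc]
    gcongr
    exact hg2 n
  refine ne_of_lt (lt_of_le_of_lt (ENNReal.tsum_le_tsum hle) ?_)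
  rw [ENNReal.tsum_mul_left]
  exact ENNReal.mul_lt_top (by simp) (lt_top_iff_ne_top.2 hfin)

lemma ae_tsum_indicator_lt_top (u : ℕ → ℝ) :
    ∀ᵐ t : ℝ, ∑' n : ℕ, ENNReal.ofReal (1 / ((n : ℝ) + 1)) *
      (E u n).indicator (1 : ℝ → ℝ≥0∞) t < ∞ := by
  have hm : ∀ n : ℕ, Measurable fun t => ENNReal.ofReal (1 / ((n : ℝ) + 1)) *
      (E u n).indicator (1 : ℝ → ℝ≥0∞) t := fun n =>
    (measurable_one.indicator (isOpen_E u n).measurableSet).const_mul _
  apply ae_lt_top (Measurable.tsum hm)
  rw [lintegral_tsum fun n => (hm n).aemeasurable]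
  have h : ∀ n : ℕ, ∫⁻ t, ENNReal.ofReal (1 / ((n : ℝ) + 1)) *
      (E u n).indicator (1 : ℝ → ℝ≥0∞) t =
      ENNReal.ofReal (1 / ((n : ℝ) + 1)) * volume (E u n) := by
    intro n
    rw [lintegral_const_mul _ (measurable_one.indicator (isOpen_E u n).measurableSet),
      lintegral_indicator_one (isOpen_E u n).measurableSet]
  simp_rw [h]
  exact tsum_volume_E u

/-- For a fixed `t` the set of the `a ∈ (0, M)` served at time `n` is small. -/
lemma volume_served_le (M : ℝ) (hM : 0 < M) (n : ℕ) (p : ℝ) :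
    volume {a : ℝ | a ∈ Ioo 0 M ∧ 1 < a ^ n * p ∧ a ^ n * p < 2} ≤
      ENNReal.ofReal (2 * M / ((n : ℝ) + 1)) := by
  rcases Nat.eq_zero_or_pos n with rfl | hn
  · refine (measure_mono (t := Ioo 0 M) fun a ha => ha.1).trans ?_
    rw [Real.volume_Ioo]
    apply ENNReal.ofReal_le_ofReal
    simp
    linarith
  · refine (Real.volume_le_diam _).trans ?_
    apply Metric.ediam_le
    intro a ha b hb
    rw [edist_dist]
    apply ENNReal.ofReal_le_ofReal
    rw [Real.dist_eq]
    have hn1 : (1 : ℝ) ≤ n := by exact_mod_cast hn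
    have key : ∀ a b : ℝ, a ∈ Ioo 0 M → 1 < a ^ n * p → b ^ n * p < 2 → a ≤ b →
        b - a ≤ 2 * M / ((n : ℝ) + 1) := by
      intro a b ha h1 h2 hab
      have ha0 : 0 < a := ha.1
      have hp : 0 < p := by
        by_contra hp
        push Not at hp
        have : a ^ n * p ≤ 0 := mul_nonpos_of_nonneg_of_nonpos (by positivity) hp
        linarith
      have hbern : 1 + (n : ℝ) * (b / a - 1) ≤ (b / a) ^ n := by
        have h3 : (1 : ℝ) ≤ b / a := by rw [le_div_iff₀ ha0]; linarith
        have := one_add_mul_le_pow (a := b / a - 1) (by linarith) n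
        simpa using this
      have h4 : (b / a) ^ n < 2 := by
        rw [div_pow, div_lt_iff₀ (by positivity)]
        have h5 : b ^ n * p < 2 * a ^ n * p := by nlinarith
        exact lt_of_mul_lt_mul_right h5 hp.le
      have h6 : (n : ℝ) * (b / a - 1) < 1 := by linarith
      have h7 : (n : ℝ) * (b - a) < a := by
        have h8 : b / a - 1 = (b - a) / a := by field_simp
        rw [h8, ← mul_div_assoc, div_lt_one ha0] at h6
        exact h6
      rw [le_div_iff₀ (by positivity)]
      have h9 : a < M := ha.2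
      nlinarith
    rcases le_total a b with hab | hab
    · rw [abs_sub_comm, abs_of_nonneg (by linarith)]
      exact key a b ha.1 ha.2.1 hb.2.2 hab
    · rw [abs_of_nonneg (by linarith)]
      exact key b a hb.1 hb.2.1 ha.2.2 hab

/-- The main statement about sequences. -/
lemma seq_main (u : ℕ → ℝ) (M : ℝ) (hM : 0 < M) :
    ∀ᵐ t : ℝ, t ∈ Ioo (0 : ℝ) (1 / 16) → ∀ᵐ a : ℝ, a ∈ Ioo 0 M →
      ∀ᶠ n in atTop, ¬ Good (a ^ n * (app u n).eval t)
    (a ^ n * (app (sh u) n).eval t) (a ^ n * (app (sh (sh u)) n).eval t)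
    (a ^ n * (app (sh (sh (sh u))) n).eval t) := by
  filter_upwards [ae_tsum_indicator_lt_top u] with t ht htI
  let B : ℕ → Set ℝ := fun n => {a | a ∈ Ioo 0 M ∧ Good (a ^ n * (app u n).eval t)
    (a ^ n * (app (sh u) n).eval t) (a ^ n * (app (sh (sh u)) n).eval t)
    (a ^ n * (app (sh (sh (sh u))) n).eval t)}
  have hB : ∀ n, volume (B n) ≤ ENNReal.ofReal (2 * M) * (ENNReal.ofReal (1 / ((n : ℝ) + 1)) *
      (E u n).indicator (1 : ℝ → ℝ≥0∞) t) := by
    intro n
    by_cases hE : t ∈ E u n
    · rw [indicator_of_mem hE]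
      simp only [Pi.one_apply, mul_one]
      rw [← ENNReal.ofReal_mul (by positivity), mul_one_div]
      refine le_trans (measure_mono ?_) (volume_served_le M hM n ((app u n).eval t))
      intro a ha
      exact ⟨ha.1, ha.2.1, ha.2.2.1⟩
    · have : B n = ∅ := by
        rw [eq_empty_iff_forall_notMem]
        intro a ha
        apply hE
        exact ⟨htI, a ^ n, pow_pos ha.1.1 n, ha.2⟩
      rw [this]
      simp
  have hsum : ∑' n, volume (B n) ≠ ∞ := by
    refine ne_of_lt (lt_of_le_of_lt (ENNReal.tsum_le_tsum hB) ?_)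
    rw [ENNReal.tsum_mul_left]
    exact ENNReal.mul_lt_top ENNReal.ofReal_lt_top ht
  have h0 := measure_limsup_atTop_eq_zero hsum
  have h1 : ∀ᵐ a : ℝ, a ∉ limsup B atTop := by
    rw [ae_iff]
    simpa using h0
  filter_upwards [h1] with a ha haM
  rw [Filter.mem_limsup_iff_frequently_mem, Filter.not_frequently] at ha
  filter_upwards [ha] with n hn hgood
  exact hn ⟨haM, hgood⟩

section Operators

variable {X : Type*} [AddCommGroup X] [Module ℝ X] [TopologicalSpace X]

lemma exists_eigenvector {V : Type*} [AddCommGroup V] [Module ℂ V] (A : Module.End ℂ V)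
    (p : ℂ[X]) (hp : p ≠ 0) (v : V) (hv : v ≠ 0) (h : aeval A p v = 0) :
    ∃ (μ : ℂ) (w : V), w ≠ 0 ∧ A w = μ • w := by
  induction hn : p.natDegree using Nat.strong_induction_on generalizing p v with
  | _ n ih =>
    rcases Nat.eq_zero_or_pos n with h0 | hpos
    · subst h0
      exfalso
      rw [Polynomial.eq_C_of_natDegree_eq_zero hn] at h hp
      simp only [aeval_C, Module.algebraMap_end_apply, smul_eq_zero] at h
      rcases h with h | h
      · exact hp (by rw [h, C_0])
      · exact hv h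
    · have hdeg : p.degree ≠ 0 := by
        intro h1
        have := Polynomial.natDegree_eq_of_degree_eq_some (n := 0) (by simpa using h1)
        omega
      obtain ⟨μ, hμ⟩ := IsAlgClosed.exists_root p hdeg
      obtain ⟨q, hq⟩ := Polynomial.dvd_iff_isRoot.2 hμ
      by_cases hw : aeval A q v = 0
      · have hq0 : q ≠ 0 := by
          rintro rfl
          exact hp (by rw [hq, mul_zero])
        have hdegq : q.natDegree < n := by
          rw [← hn, hq, Polynomial.natDegree_mul (Polynomial.X_sub_C_ne_zero μ) hq0,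
            Polynomial.natDegree_X_sub_C]
          omega
        exact ih q.natDegree hdegq q hq0 v hv hw rfl
      · refine ⟨μ, aeval A q v, hw, ?_⟩
        rw [hq, map_mul, Module.End.mul_apply] at h
        simp only [map_sub, aeval_X, aeval_C, LinearMap.sub_apply,
          Module.algebraMap_end_apply] at h
        exact sub_eq_zero.1 h

/-- An operator with an eigenfunctional has no hypercyclic vector. -/
lemma not_dense_of_eigenfunctional (S : X →L[ℝ] X) (x : X) (w : X →L[ℝ] ℂ) (hw : w ≠ 0)
    (μ : ℂ) (h : ∀ z, w (S z) = μ * w z) : ¬ Dense (Set.range fun n : ℕ => (S ^ n) x) := by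
  intro hd
  have horb : ∀ n : ℕ, w ((S ^ n) x) = μ ^ n * w x := by
    intro n
    induction n with
    | zero => simp
    | succ n ih =>
      rw [pow_succ', mul_apply_eq_comp, h, ih]
      ring
  obtain ⟨z0, hz0⟩ : ∃ z, w z ≠ 0 := by
    by_contra hcon
    push Not at hcon
    exact hw (ContinuousLinearMap.ext hcon)
  have hcont : Continuous fun z => ‖w z‖ := w.continuous.norm
  have hlarge : ∀ R : ℝ, ∃ z, R < ‖w z‖ := by
    intro R
    obtain ⟨k, hk⟩ := exists_nat_gt (R / ‖w z0‖)
    refine ⟨(k : ℝ) • z0, ?_⟩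
    rw [map_smul, norm_smul, Real.norm_natCast]
    rwa [div_lt_iff₀ (norm_pos_iff.2 hz0)] at hk
  by_cases hμ : ‖μ‖ ≤ 1
  · obtain ⟨z1, hz1⟩ := hlarge ‖w x‖
    obtain ⟨y, ⟨n, rfl⟩, hy1⟩ := hd.exists_mem_open (isOpen_lt continuous_const hcont) ⟨z1, hz1⟩
    simp only [mem_ofPred_eq] at hy1
    rw [horb, norm_mul, norm_pow] at hy1
    have : ‖μ‖ ^ n * ‖w x‖ ≤ 1 * ‖w x‖ := by
      gcongr
      exact pow_le_one₀ (norm_nonneg _) hμ
    linarith
  · push Not at hμ
    by_cases hx : w x = 0
    · obtain ⟨z1, hz1⟩ := hlarge 0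
      obtain ⟨y, ⟨n, rfl⟩, hy1⟩ := hd.exists_mem_open (isOpen_lt continuous_const hcont) ⟨z1, hz1⟩
      simp only [mem_ofPred_eq] at hy1
      rw [horb, hx] at hy1
      simp at hy1
    · have hpos : 0 < ‖w x‖ := norm_pos_iff.2 hx
      obtain ⟨y, ⟨n, rfl⟩, hy1⟩ := hd.exists_mem_open (isOpen_lt hcont continuous_const)
        ⟨0, by rw [mem_ofPred_eq, map_zero, norm_zero]; exact hpos⟩
      simp only [mem_ofPred_eq] at hy1
      rw [horb, norm_mul, norm_pow] at hy1
      have : 1 * ‖w x‖ ≤ ‖μ‖ ^ n * ‖w x‖ := by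
        gcongr
        exact one_le_pow₀ hμ.le
      linarith

/-- If `T` has an operator `a T + b I`, with a hypercyclic vector, then the functionals
`f ∘ T ^ j`, `j < 4`, are linearly independent and so take any prescribed values. -/
lemma exists_values [IsTopologicalAddGroup X] [ContinuousSMul ℝ X]
    (T : X →L[ℝ] X) (x : X) (a b : ℝ)
    (hx : Dense (Set.range fun n : ℕ => ((a • T + b • ContinuousLinearMap.id ℝ X) ^ n) x))
    (f : X →L[ℝ] ℝ) (hf : f ≠ 0) (y : Fin 4 → ℝ) :
    ∃ z : X, ∀ j : Fin 4, f ((T ^ (j : ℕ)) z) = y j := by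
  classical
  let Φ : X →ₗ[ℝ] (Fin 4 → ℝ) := LinearMap.pi fun j => (f : X →ₗ[ℝ] ℝ) ∘ₗ ((T ^ (j : ℕ) : X →L[ℝ] X) : X →ₗ[ℝ] X)
  have hΦ : ∀ z j, Φ z j = f ((T ^ (j : ℕ)) z) := fun z j => rfl
  by_cases htop : LinearMap.range Φ = ⊤
  · obtain ⟨z, hz⟩ := LinearMap.range_eq_top.1 htop y
    exact ⟨z, fun j => by rw [← hΦ, hz]⟩
  exfalso
  obtain ⟨g, hg0, hg⟩ := Submodule.exists_le_ker_of_lt_top _ (lt_top_iff_ne_top.2 htop)
  -- complex valued functionals
  let A : Module.End ℂ (X →L[ℝ] ℂ) :=
    { toFun := fun w => w.comp T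
      map_add' := fun w v => by ext z; simp
      map_smul' := fun c w => by ext z; simp }
  have hA : ∀ (w : X →L[ℝ] ℂ) (z : X), A w z = w (T z) := fun w z => rfl
  have hApow : ∀ (n : ℕ) (w : X →L[ℝ] ℂ) (z : X), (A ^ n) w z = w ((T ^ n) z) := by
    intro n
    induction n with
    | zero => intro w z; simp
    | succ n ih =>
      intro w z
      rw [pow_succ', Module.End.mul_apply, hA, ih, pow_succ, mul_apply_eq_comp]
  let F : X →L[ℝ] ℂ := Complex.ofRealCLM.comp f
  have hF : F ≠ 0 := by
    intro h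
    apply hf
    ext z
    have : F z = 0 := by rw [h]; rfl
    simpa [F] using this
  let c : Fin 4 → ℝ := fun j => g (Pi.single j 1)
  have hc : ∀ v : Fin 4 → ℝ, g v = ∑ j, v j * c j := by
    intro v
    have h1 : v = ∑ j, v j • (Pi.single j (1 : ℝ) : Fin 4 → ℝ) := by
      ext i
      simp [Finset.sum_apply, Pi.single_apply]
    conv_lhs => rw [h1]
    rw [map_sum]
    apply Finset.sum_congr rfl
    intro j _
    rw [map_smul, smul_eq_mul]
  let p : Polynomial ℂ := ∑ j : Fin 4, C (c j : ℂ) * Polynomial.X ^ (j : ℕ)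
  have hcoeff : ∀ j : Fin 4, p.coeff j = c j := by
    intro j
    simp only [p, Polynomial.finsetSum_coeff, Polynomial.coeff_C_mul, Polynomial.coeff_X_pow]
    rw [Finset.sum_eq_single j]
    · simp
    · intro i _ hij
      have : (j : ℕ) ≠ (i : ℕ) := fun h => hij (Fin.ext h.symm)
      simp [this]
    · simp
  have hp : p ≠ 0 := by
    intro h
    apply hg0
    refine LinearMap.ext fun v => ?_
    rw [hc]
    have : ∀ j, c j = 0 := by
      intro j
      have h1 := hcoeff j
      rw [h] at h1
      simpa using h1.symm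
    simp [this]
  have hpF : aeval A p F = 0 := by
    ext z
    have h1 : g (Φ z) = 0 := hg ⟨z, rfl⟩
    rw [hc] at h1
    simp only [p, map_sum, map_mul, aeval_C, map_pow, aeval_X]
    rw [LinearMap.sum_apply, sum_apply]
    have h2 : ∀ j : Fin 4, ((algebraMap ℂ (Module.End ℂ (X →L[ℝ] ℂ))) (c j : ℂ) *
        A ^ (j : ℕ)) F z = ((Φ z j * c j : ℝ) : ℂ) := by
      intro j
      rw [Module.End.mul_apply, Module.algebraMap_end_apply]
      rw [smul_apply, hApow]
      simp only [F, hΦ, ContinuousLinearMap.comp_apply, Complex.ofRealCLM_apply, smul_eq_mul]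
      push_cast
      ring
    rw [Finset.sum_congr rfl fun j _ => h2 j, ← Complex.ofReal_sum, h1]
    simp
  obtain ⟨μ, w, hw, hAw⟩ := exists_eigenvector A p hp F hF hpF
  refine not_dense_of_eigenfunctional _ x w hw (a * μ + b) ?_ hx
  intro z
  have h1 : w (T z) = μ * w z := by rw [← hA, hAw]; rfl
  simp only [add_apply, smul_apply,
    ContinuousLinearMap.id_apply, map_add, map_smul, h1, Complex.real_smul]
  ring

lemma orbit_eq (T : X →L[ℝ] X) [IsTopologicalAddGroup X] [ContinuousSMul ℝ X]
    (f : X →L[ℝ] ℝ) (x : X) (a t : ℝ) (n j : ℕ) :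
    f ((T ^ j) (((a • T + (a * t) • ContinuousLinearMap.id ℝ X) ^ n) x)) =
      a ^ n * (app (fun k => f ((T ^ (k + j)) x)) n).eval t := by
  induction n generalizing j with
  | zero => simp [app_zero]
  | succ n ih =>
    rw [pow_succ', mul_apply_eq_comp]
    simp only [add_apply, smul_apply,
      ContinuousLinearMap.id_apply, map_add, map_smul, smul_eq_mul]
    have h1 : f ((T ^ j) (T (((a • T + (a * t) • ContinuousLinearMap.id ℝ X) ^ n) x))) =
        f ((T ^ (j + 1)) (((a • T + (a * t) • ContinuousLinearMap.id ℝ X) ^ n) x)) := by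
      rw [pow_succ, mul_apply_eq_comp]
    rw [h1, ih, ih, eval_app_succ]
    have h2 : sh (fun k => f ((T ^ (k + j)) x)) = fun k => f ((T ^ (k + (j + 1))) x) := by
      funext k
      simp only [sh]
      congr 3
      ring
    rw [h2]
    ring

end Operators

/-- For every nonzero real Hausdorff locally convex space `X` (in particular for every real
Frechet space) and every continuous linear operator `T` on `X`, no vector `x : X` is hypercyclic
for all the operators `a T + b I` with `a > 0` and `b : ℝ`. -/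
theorem no_common_dense_orbit {X : Type*} [AddCommGroup X] [Module ℝ X] [TopologicalSpace X]
    [IsTopologicalAddGroup X] [ContinuousSMul ℝ X] [LocallyConvexSpace ℝ X] [T2Space X]
    [Nontrivial X] (T : X →L[ℝ] X) :
    ¬ ∃ x : X, ∀ a : ℝ, 0 < a → ∀ b : ℝ,
      Dense (Set.range fun n : ℕ => ((a • T + b • ContinuousLinearMap.id ℝ X) ^ n) x) := by
  rintro ⟨x, hx⟩
  obtain ⟨z0, hz0⟩ := exists_ne (0 : X)
  obtain ⟨f, hfz⟩ := SeparatingDual.exists_ne_zero (R := ℝ) hz0
  have hf : f ≠ 0 := by
    rintro rfl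
    exact hfz rfl
  -- the open set
  let O : Set X := {z | Good (f ((T ^ 0) z)) (f ((T ^ 1) z)) (f ((T ^ 2) z)) (f ((T ^ 3) z))}
  have hO : IsOpen O := by
    have c : ∀ j : ℕ, Continuous fun z => f ((T ^ j) z) := fun j =>
      f.continuous.comp (T ^ j).continuous
    exact (isOpen_lt continuous_const (c 0)).inter ((isOpen_lt (c 0) continuous_const).inter
      ((isOpen_lt (c 1).abs continuous_const).inter ((isOpen_lt continuous_const (c 2)).inter
      ((isOpen_lt (c 2) continuous_const).inter (isOpen_lt (c 3).abs continuous_const)))))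
  have hOne : O.Nonempty := by
    obtain ⟨z, hz⟩ := exists_values T x 1 0 (hx 1 one_pos 0) f hf ![3 / 2, 0, 3 / 2, 0]
    refine ⟨z, ?_⟩
    have h0 := hz 0
    have h1 := hz 1
    have h2 := hz 2
    have h3 := hz 3
    simp at h0 h1 h2 h3
    simp only [O, Good, mem_ofPred_eq]
    norm_num [h0, h1, h2, h3]
  -- choice of the parameters
  have hs := seq_main (fun k => f ((T ^ (k + 0)) x)) 2 (by norm_num)
  have hpos1 : ∃ᵐ t : ℝ, t ∈ Ioo (0 : ℝ) (1 / 16) := by
    rw [MeasureTheory.frequently_ae_mem_iff]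
    simp
  obtain ⟨t, ht1, ht2⟩ := (hpos1.and_eventually hs).exists
  have hpos2 : ∃ᵐ a : ℝ, a ∈ Ioo (0 : ℝ) 2 := by
    rw [MeasureTheory.frequently_ae_mem_iff]
    simp
  obtain ⟨a, ha1, ha2⟩ := (hpos2.and_eventually (ht2 ht1)).exists
  have hev := ha2 ha1
  have hhyp := hx a ha1.1 (a * t)
  set S := a • T + (a * t) • ContinuousLinearMap.id ℝ X with hS
  have hfin : {n : ℕ | (S ^ n) x ∈ O}.Finite := by
    obtain ⟨N, hN⟩ := eventually_atTop.1 hev
    apply (Set.finite_lt_nat N).subset
    intro n hn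
    simp only [mem_ofPred_eq]
    by_contra hcon
    push Not at hcon
    apply hN n hcon
    simp only [O, mem_ofPred_eq, hS, orbit_eq] at hn
    exact hn
  have hfin2 : ((fun n : ℕ => (S ^ n) x) '' {n : ℕ | (S ^ n) x ∈ O}).Finite := hfin.image _
  have : ∀ z : X, (𝓝[≠] z).NeBot := fun z => Module.punctured_nhds_neBot ℝ X z
  have hd2 := Dense.sdiff_finite hhyp hfin2
  obtain ⟨y, ⟨⟨n, rfl⟩, hy2⟩, hyO⟩ := hd2.exists_mem_open hO hOne
  exact hy2 ⟨n, hyO, rfl⟩

end Pool.Agent.MP_e13f12_an.AppellCount
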